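import Mathlib
import Pool.Agent.K9h64.SA.Blow
import Pool.Agent.H1Tv.Ramsey

set_option autoImplicit false

/-!
# The semi-algebraic Ramsey number `R_f^{(3)}(4, n)` in the plane is not polynomial

We exhibit one polynomial `f` in six variables (of degree 7) for which
`R_f^{(3)}(4, n) > n ^ C` as soon as `n ≥ 2 ^ 2 ^ 2 ^ (4 C + 3)`, for every `C`.
-/

namespace Pool.Agent.Results.MP_654b32_co.Superpolynomial

open Finset Classical Pool.Agent.K9h64.SA

/-- Value `f(x, y, z)` of a real polynomial in six variables at three points of the plane. -/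
noncomputable def polyVal (f : MvPolynomial (Fin 6) ℝ) (x y z : ℝ × ℝ) : ℝ :=
  MvPolynomial.eval ![x.1, x.2, y.1, y.2, z.1, z.2] f

/-- `S` is a clique of the hypergraph of the sequence `v 0, v 1, ...`: every triple
`i < j < k` in `S` satisfies `f (v i, v j, v k) ≥ 0`. -/
def IsClique (f : MvPolynomial (Fin 6) ℝ) {N : ℕ} (v : Fin N → ℝ × ℝ) (S : Finset (Fin N)) :
    Prop :=
  ∀ i ∈ S, ∀ j ∈ S, ∀ k ∈ S, i < j → j < k → 0 ≤ polyVal f (v i) (v j) (v k)

/-- `S` is an independent set of the hypergraph of the sequence `v 0, v 1, ...`: no triple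
`i < j < k` in `S` satisfies `f (v i, v j, v k) ≥ 0`. -/
def IsIndependent (f : MvPolynomial (Fin 6) ℝ) {N : ℕ} (v : Fin N → ℝ × ℝ)
    (S : Finset (Fin N)) : Prop :=
  ∀ i ∈ S, ∀ j ∈ S, ∀ k ∈ S, i < j → j < k → ¬ 0 ≤ polyVal f (v i) (v j) (v k)

/-- For all `N` distinct points of the plane, in every order, the hypergraph defined by `f` has a
clique on `s` vertices or an independent set on `n` vertices. -/
def RamseyProperty (f : MvPolynomial (Fin 6) ℝ) (s n N : ℕ) : Prop :=
  ∀ v : Fin N → ℝ × ℝ, Function.Injective v →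
    (∃ S : Finset (Fin N), S.card = s ∧ IsClique f v S) ∨
    (∃ S : Finset (Fin N), S.card = n ∧ IsIndependent f v S)

/-- The semi-algebraic Ramsey number `R_f^{(3)}(s, n)`: the least `N` with the Ramsey property. -/
noncomputable def R (f : MvPolynomial (Fin 6) ℝ) (s n : ℕ) : ℕ :=
  sInf {N : ℕ | RamseyProperty f s n N}

/-! ### The polynomial -/

/-- The polynomial. -/
noncomputable def f0 : MvPolynomial (Fin 6) ℝ :=
  (MvPolynomial.X 2 - MvPolynomial.X 0) ^ 3 * (MvPolynomial.X 4 - MvPolynomial.X 2) *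
      (MvPolynomial.X 3 - MvPolynomial.X 1) ^ 2 -
    MvPolynomial.C 2 * ((MvPolynomial.X 2 - MvPolynomial.X 0) ^ 4 *
        (MvPolynomial.X 4 - MvPolynomial.X 2) ^ 2 * (MvPolynomial.X 3 - MvPolynomial.X 1) +
      (MvPolynomial.X 3 - MvPolynomial.X 1) ^ 4 +
      (MvPolynomial.X 2 - MvPolynomial.X 0) ^ 6 * (MvPolynomial.X 5 - MvPolynomial.X 3))

lemma polyVal_f0 (x y z : ℝ × ℝ) :
    polyVal f0 x y z = FF (y.1 - x.1) (y.2 - x.2) (z.1 - y.1) (z.2 - y.2) := by
  simp [polyVal, f0, FF, Matrix.cons_val_zero, Matrix.cons_val_one]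

/-! ### Finiteness of the Ramsey numbers -/

lemma triple_eq {N : ℕ} {i j k i' j' k' : Fin N} (h1 : i < j) (h2 : j < k) (h1' : i' < j')
    (h2' : j' < k') (h : ({i, j, k} : Finset (Fin N)) = {i', j', k'}) :
    i = i' ∧ j = j' ∧ k = k' := by
  have a1 : i ∈ ({i', j', k'} : Finset (Fin N)) := by rw [← h]; simp
  have a2 : j ∈ ({i', j', k'} : Finset (Fin N)) := by rw [← h]; simp
  have a3 : k ∈ ({i', j', k'} : Finset (Fin N)) := by rw [← h]; simp
  simp only [mem_insert, mem_singleton] at a1 a2 a3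
  omega

lemma finite (f : MvPolynomial (Fin 6) ℝ) (s n : ℕ) : ∃ N, RamseyProperty f s n N := by
  obtain ⟨N, hN⟩ := Pool.Agent.H1Tv.ramsey_aux 3 s n
  refine ⟨N, fun v _ => ?_⟩
  have hcard : ∀ i j k : Fin N, i < j → j < k → ({i, j, k} : Finset (Fin N)).card = 3 := by
    intro i j k h1 h2
    rw [card_eq_three]
    exact ⟨i, j, k, h1.ne, (h1.trans h2).ne, h2.ne, rfl⟩
  rcases hN (Fin N) univ (fun T => ∃ i j k : Fin N, i < j ∧ j < k ∧ T = {i, j, k} ∧
    0 ≤ polyVal f (v i) (v j) (v k)) (by simp) with ⟨Z, _, hZ, h⟩ | ⟨Z, _, hZ, h⟩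
  · left
    refine ⟨Z, hZ, fun i hi j hj k hk h1 h2 => ?_⟩
    obtain ⟨i', j', k', h1', h2', he, hp⟩ := h {i, j, k} (by
      rw [mem_powersetCard]
      refine ⟨?_, hcard i j k h1 h2⟩
      intro x hx
      simp only [mem_insert, mem_singleton] at hx
      rcases hx with rfl | rfl | rfl <;> assumption)
    obtain ⟨rfl, rfl, rfl⟩ := triple_eq h1 h2 h1' h2' he
    exact hp
  · right
    refine ⟨Z, hZ, fun i hi j hj k hk h1 h2 hp => ?_⟩
    apply h {i, j, k} (by
      rw [mem_powersetCard]
      refine ⟨?_, hcard i j k h1 h2⟩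
      intro x hx
      simp only [mem_insert, mem_singleton] at hx
      rcases hx with rfl | rfl | rfl <;> assumption)
    exact ⟨i, j, k, h1, h2, rfl, hp⟩

lemma mono {f : MvPolynomial (Fin 6) ℝ} {s n N N' : ℕ} (h : RamseyProperty f s n N)
    (hN : N ≤ N') : RamseyProperty f s n N' := by
  intro v hv
  rcases h (fun i => v (Fin.castLE hN i)) (hv.comp (Fin.castLE_injective hN)) with
    ⟨S, hS, hc⟩ | ⟨S, hS, hc⟩
  · left
    refine ⟨S.map (Fin.castLEEmb hN), by rw [card_map, hS], ?_⟩
    intro i hi j hj k hk h1 h2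
    rw [mem_map] at hi hj hk
    obtain ⟨i, hi, rfl⟩ := hi
    obtain ⟨j, hj, rfl⟩ := hj
    obtain ⟨k, hk, rfl⟩ := hk
    exact hc i hi j hj k hk (by simpa using h1) (by simpa using h2)
  · right
    refine ⟨S.map (Fin.castLEEmb hN), by rw [card_map, hS], ?_⟩
    intro i hi j hj k hk h1 h2
    rw [mem_map] at hi hj hk
    obtain ⟨i, hi, rfl⟩ := hi
    obtain ⟨j, hj, rfl⟩ := hj
    obtain ⟨k, hk, rfl⟩ := hk
    exact hc i hi j hj k hk (by simpa using h1) (by simpa using h2)

/-! ### The points -/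

section Points

variable {ι : Type} {α β : ι → ℕ}

lemma near_one (hch : Chain α β) {s t : Finset ι} {i : ι} (h : Top α s t i) :
    Near (coord α t - coord α s) (α i) := coord_diff (chain_inj hch) h.1 h.2.1 h.2.2

lemma near_two (hch : Chain α β) {s t : Finset ι} {i : ι} (h : Top α s t i) :
    Near (coord (fun i => α i + β i) t - coord (fun i => α i + β i) s) (α i + β i) := by
  have hinj : Function.Injective (fun i => α i + β i) := by
    intro v w he
    by_contra hne
    simp only at he
    rcases hch v w hne with h1 | h1 <;> omega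
  apply coord_diff hinj h.1 h.2.1
  intro j hj
  apply h.2.2
  have hj' : α i + β i < α j + β j := hj
  by_cases hij : i = j
  · subst hij; omega
  · rcases hch i j hij with h1 | h1 <;> omega

lemma coord_lt (hch : Chain α β) {s t : Finset ι} {i : ι} (h : Top α s t i) :
    coord α s < coord α t := by
  have := (near_one hch h).pos
  linarith

lemma coord_inj (hch : Chain α β) : Function.Injective (coord α) := by
  intro s t he
  by_contra hne
  obtain ⟨i, hi | hi⟩ := exists_top α (chain_inj hch) hne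
  · exact absurd he (coord_lt hch hi).ne
  · exact absurd he (coord_lt hch hi).ne'

lemma top_of_lt (hch : Chain α β) {s t : Finset ι} (h : coord α s < coord α t) :
    ∃ i, Top α s t i := by
  have hne : s ≠ t := fun e => by rw [e] at h; exact lt_irrefl _ h
  obtain ⟨i, hi | hi⟩ := exists_top α (chain_inj hch) hne
  · exact ⟨i, hi⟩
  · exact absurd h (not_lt.mpr (coord_lt hch hi).le)

/-- the point of a string -/
noncomputable def pt (α β : ι → ℕ) (s : Finset ι) : ℝ × ℝ :=
  (coord α s, coord (fun i => α i + β i) s)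

lemma edge_iff (hch : Chain α β) {x y z : Finset ι} {i j : ι} (h1 : Top α x y i)
    (h2 : Top α y z j) : 0 ≤ polyVal f0 (pt α β x) (pt α β y) (pt α β z) ↔ Rel α β i j := by
  rw [polyVal_f0]
  exact sign_FF (near_one hch h1) (near_two hch h1) (near_one hch h2) (near_two hch h2)

/-- No Ramsey property for `2 ^ |ι|` points if there are few independent sets of levels. -/
lemma not_ramsey [Fintype ι] (hch : Chain α β) (hβα : ∀ i, β i < α i) {n : ℕ}
    (hn : ((univ : Finset (Finset ι)).filter (fun J => Indep α β J)).card < n) :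
    ¬ RamseyProperty f0 4 n (2 ^ Fintype.card ι) := by
  intro hR
  have hcard : ((univ : Finset (Finset ι)).image (coord α)).card = 2 ^ Fintype.card ι := by
    rw [card_image_of_injective _ (coord_inj hch), card_univ, Fintype.card_finset]
  set e := ((univ : Finset (Finset ι)).image (coord α)).orderEmbOfFin hcard with he
  have hex : ∀ k, ∃ s : Finset ι, coord α s = e k := by
    intro k
    have := Finset.orderEmbOfFin_mem ((univ : Finset (Finset ι)).image (coord α)) hcard k
    rw [mem_image] at this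
    obtain ⟨s, _, hs⟩ := this
    exact ⟨s, hs⟩
  choose g hg using hex
  have hlt : ∀ {a b}, a < b → coord α (g a) < coord α (g b) := by
    intro a b hab
    rw [hg, hg]
    exact e.strictMono hab
  have hlt' : ∀ {a b}, coord α (g a) < coord α (g b) → a < b := by
    intro a b hab
    rw [hg, hg] at hab
    exact e.lt_iff_lt.mp hab
  have ginj : Function.Injective g := by
    intro a b hab
    have : e a = e b := by rw [← hg, ← hg, hab]
    exact e.injective this
  have hα := chain_inj hch
  rcases hR (fun k => pt α β (g k)) (by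
    intro a b hab
    have h1 := congrArg Prod.fst hab
    exact ginj (coord_inj hch h1)) with ⟨S, hS, hc⟩ | ⟨S, hS, hc⟩
  · -- a clique on four vertices
    set o := S.orderEmbOfFin hS with ho
    have hm : ∀ a, o a ∈ S := fun a => Finset.orderEmbOfFin_mem S hS a
    have ltt : ∀ {a b : Fin 4}, a < b → o a < o b := fun hab => o.strictMono hab
    obtain ⟨i, hi⟩ := top_of_lt hch (hlt (ltt (show (0 : Fin 4) < 1 by decide)))
    obtain ⟨j, hj⟩ := top_of_lt hch (hlt (ltt (show (1 : Fin 4) < 2 by decide)))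
    obtain ⟨l, hl⟩ := top_of_lt hch (hlt (ltt (show (2 : Fin 4) < 3 by decide)))
    obtain ⟨i', hi'⟩ := top_of_lt hch (hlt (ltt (show (0 : Fin 4) < 2 by decide)))
    have c1 := (edge_iff hch hi hj).mp (hc _ (hm 0) _ (hm 1) _ (hm 2) (ltt (by decide))
      (ltt (by decide)))
    have c2 := (edge_iff hch hi' hl).mp (hc _ (hm 0) _ (hm 2) _ (hm 3) (ltt (by decide))
      (ltt (by decide)))
    have c3 := (edge_iff hch hj hl).mp (hc _ (hm 1) _ (hm 2) _ (hm 3) (ltt (by decide))
      (ltt (by decide)))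
    exact no_four (w := g (o 3)) hα hβα hi hj hi' c1 c2 c3
  · -- an independent set
    have h1 : (S.image g).card = n := by rw [card_image_of_injective _ ginj, hS]
    have h2 := card_le_indep hα hβα (S.image g) (by
      intro x hx y hy z hz i j hi hj hrel
      rw [mem_image] at hx hy hz
      obtain ⟨a, ha, rfl⟩ := hx
      obtain ⟨b, hb, rfl⟩ := hy
      obtain ⟨c, hc', rfl⟩ := hz
      exact hc a ha b hb c hc' (hlt' (coord_lt hch hi)) (hlt' (coord_lt hch hj))
        ((edge_iff hch hi hj).mpr hrel))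
    omega

end Points

/-- **`R_f^{(3)}(4, n)` is not bounded by a polynomial.** There is one real polynomial `f` in six
variables such that all the numbers `R_f^{(3)}(s, n)` are finite and, for every `C`,
`R_f^{(3)}(4, n) > n ^ C` for all `n ≥ 2 ^ 2 ^ 2 ^ (4 C + 3)`. -/
theorem result : ∃ f : MvPolynomial (Fin 6) ℝ,
    (∀ s n : ℕ, ∃ N : ℕ, RamseyProperty f s n N) ∧
    ∀ C n : ℕ, 2 ^ 2 ^ 2 ^ (4 * C + 3) ≤ n → n ^ C < R f 4 n := by
  refine ⟨f0, fun s n => finite f0 s n, fun C n hn => ?_⟩
  obtain ⟨v, D, hD, hv, hDle, hlev⟩ := exists_levels C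
  set E := 2 ^ 2 ^ (4 * C + 1) with hE
  have hE4 : 4 ≤ E := by
    calc 4 = 2 ^ 2 ^ 1 := by norm_num
      _ ≤ E := Nat.pow_le_pow_right (by norm_num) (Nat.pow_le_pow_right (by norm_num) (by omega))
  have hEE : 2 ^ 2 ^ (4 * C + 3) = E ^ 4 := by
    rw [hE, ← pow_mul]
    congr 1
    rw [show 4 * C + 3 = (4 * C + 1) + 2 by ring, pow_add]
    norm_num
  rw [hEE] at hn
  have hE4' : 4 * E + 2 < E ^ 4 := by
    have h1 : 4 * 4 * 4 * E ≤ E * E * E * E := by gcongr
    have h2 : E ^ 4 = E * E * E * E := by ring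
    rw [h2]; omega
  set t := Nat.clog 2 n with ht
  have hn1 : 1 < n := by
    refine lt_of_lt_of_le ?_ hn
    exact Nat.one_lt_two_pow (by positivity)
  have hnt : n ≤ 2 ^ t := Nat.le_pow_clog (by norm_num) n
  have hnt' : 2 ^ (t - 1) < n := by
    have := Nat.pow_pred_clog_lt_self (b := 2) (by norm_num) hn1
    simpa [Nat.pred_eq_sub_one] using this
  have htE : E ^ 4 ≤ t := by
    by_contra hcon
    push Not at hcon
    have h1 : 2 ^ t < 2 ^ E ^ 4 := Nat.pow_lt_pow_right (by norm_num) hcon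
    omega
  set M := t / (2 * D) + 1 with hM
  have hM1 : t < 2 * D * M := by
    rw [hM]
    exact Nat.lt_mul_div_succ t (by positivity)
  have hM2 : 2 * (D * M) ≤ t + 2 * D := by
    have h1 : 2 * D * (t / (2 * D)) ≤ t := Nat.mul_div_le t (2 * D)
    calc 2 * (D * M) = 2 * D * (t / (2 * D)) + 2 * D := by rw [hM]; ring
      _ ≤ t + 2 * D := by omega
  obtain ⟨ι, fι, α, β, hch, hβα, hcard, hind⟩ := hlev M
  have hnot := not_ramsey (n := n) hch hβα (by
    refine lt_of_le_of_lt hind (lt_of_le_of_lt ?_ hnt')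
    apply Nat.pow_le_pow_right (by norm_num)
    omega)
  have hlow : n ^ C ≤ 2 ^ Fintype.card ι := by
    calc n ^ C ≤ (2 ^ t) ^ C := Nat.pow_le_pow_left hnt C
      _ = 2 ^ (t * C) := by rw [← pow_mul]
      _ ≤ _ := by
        apply Nat.pow_le_pow_right (by norm_num)
        rw [hcard]
        calc t * C ≤ (2 * D * M) * C := Nat.mul_le_mul_right C hM1.le
          _ = _ := by ring
  have hmem : RamseyProperty f0 4 n (R f0 4 n) := by
    have hne : {N : ℕ | RamseyProperty f0 4 n N}.Nonempty := finite f0 4 n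
    exact Nat.sInf_mem hne
  by_contra hcon
  push Not at hcon
  exact hnot (mono hmem (hcon.trans hlow))

end Pool.Agent.Results.MP_654b32_co.Superpolynomial
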